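import Mathlib
import Pool.Agent.N152.HN.Pi1
import Pool.Agent.N152.HN.Metric
import Pool.Agent.N152.HN.Curves

/-!
# The fundamental group of an elliptically connected complete Kähler manifold need not be
# almost abelian

The example is the threefold `X = H₃(ℤ) \ H₃(ℂ)`, the quotient of `ℂ³` by the group of the maps
`(x, y, z) ↦ (x + m, y + n, z + m y + p)`, `m, n, p ∈ ℤ`.

* The function `2 (Im x)² + 2 (Im y)² + χ(v)`, where `v = Im z - Re x Im y` and
  `χ(s) = s arctan s - log (1 + s²) / 2`, descends to `X` and is the potential of a complete Kähler
  metric on `X`.
* Any two points of `X` are joined by a chain of three closed complex curves, each of which is the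
  image of a holomorphic map `ℂ* → X` which is a closed topological embedding. So `X` is elliptically
  connected, even with closed curves.
* `ℂ³ → X` is the universal covering, so the fundamental group is the integral Heisenberg group,
  which has no abelian subgroup of finite index.
-/

set_option autoImplicit false

open scoped Manifold ContDiff Topology

namespace Pool.Agent.Results.MP_6f2a8f_ag.HeisenbergQuotient

open Pool.Agent.W711.KC Pool.Agent.N152.HN

/-- There is a connected complex manifold `X` of dimension three with a complete Kähler metric, any
two points of which are joined by a chain of three closed curves isomorphic to `ℂ*`, and whose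
fundamental group has no abelian subgroup of finite index. -/
theorem result :
    ∃ (X : Type) (_ : TopologicalSpace X) (_ : ChartedSpace C3 X) (_ : IsManifold 𝓘(ℂ, C3) ω X),
      T2Space X ∧ SecondCountableTopology X ∧ ConnectedSpace X ∧
      -- `X` has a complete Kähler metric
      (∃ g : ∀ x : X, TangentSpace 𝓘(ℂ, C3) x → ℝ, IsKahlerMetric g ∧ IsCompleteMetric g) ∧
      -- any two points are joined by a chain of three closed curves isomorphic to `ℂ*`
      (∀ x y : X, ∃ x₁ x₂ : X, OnClosedCstar x x₁ ∧ OnClosedCstar x₁ x₂ ∧ OnClosedCstar x₂ y) ∧
      -- the fundamental group is not almost abelian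
      ∀ x : X, ¬ AlmostAbelian (FundamentalGroup X x) :=
  ⟨XX, inferInstance, inferInstance, inferInstance, inferInstance, inferInstance, inferInstance,
    ⟨gX, isKahler, isComplete⟩, chain, not_almostAbelian⟩

end Pool.Agent.Results.MP_6f2a8f_ag.HeisenbergQuotient
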